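import Mathlib

/-!
# Coverage forcing k-edge-connectivity of the distance graph

The plane is `ℂ` with its Euclidean distance.  We prove that for an arrangement `P` covering the
plane by discs of radius `r`, the graph joining sensors at distance `< c r` is `k`-edge-connected
for every covering arrangement iff `c > 1 + discRad (k-1)`, where `discRad j` is the largest
radius of a disc that is covered by the concentric unit disc and `j` further unit discs.
-/

namespace Pool.Agent.Results.MP_5da84a_co.EdgeConnectivity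

open Metric Set

/-- The closed discs of radius `r` centred at the points of `P` cover the plane. -/
def Covers (r : ℝ) (P : Set ℂ) : Prop := ∀ x : ℂ, ∃ p ∈ P, dist x p ≤ r

/-- The graph `G_c(P)`: distinct sensors are adjacent iff their distance is less than `c r`. -/
def distGraph (r c : ℝ) (P : Set ℂ) : SimpleGraph P where
  Adj p q := p ≠ q ∧ dist (p : ℂ) (q : ℂ) < c * r
  symm := ⟨fun _ _ h => ⟨h.1.symm, by rw [dist_comm]; exact h.2⟩⟩
  loopless := ⟨fun _ h => h.1 rfl⟩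

/-- `k`-edge-connected: connected, and still connected after deleting fewer than `k` edges. -/
def EdgeConn (k : ℕ) {V : Type} (G : SimpleGraph V) : Prop :=
  G.Connected ∧ ∀ F : Finset (Sym2 V), (F : Set (Sym2 V)) ⊆ G.edgeSet → F.card < k →
    (G.deleteEdges (F : Set (Sym2 V))).Connected

/-- the set of `c > 0` such that `G_c(P)` is `k`-edge-connected for every covering `P`. -/
def goodC (k : ℕ) (r : ℝ) : Set ℝ :=
  {c | 0 < c ∧ ∀ P : Set ℂ, Covers r P → EdgeConn k (distGraph r c P)}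

/-- the critical constant `c_k` (for radius `r`). -/
noncomputable def critC (k : ℕ) (r : ℝ) : ℝ := sInf (goodC k r)

/-- the set of radii `ρ` such that the open disc of radius `ρ` about `0` is covered by the closed
unit disc about `0` together with at most `j` further closed unit discs. -/
def radSet (j : ℕ) : Set ℝ :=
  {ρ | ∃ T : Finset ℂ, T.card ≤ j ∧ ball (0 : ℂ) ρ ⊆ closedBall 0 1 ∪ ⋃ t ∈ T, closedBall t 1}

/-- the concentric disc covering radius. -/
noncomputable def discRad (j : ℕ) : ℝ := sSup (radSet j)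

/-! ## Edge connectivity from the covering number -/

theorem isPreconnected_outside (R : ℝ) : IsPreconnected {x : ℂ | R ≤ ‖x‖} := by
  by_cases hR : R ≤ 0
  · have : {x : ℂ | R ≤ ‖x‖} = univ := by
      ext x; simp only [mem_ofPred_eq, mem_univ, iff_true]; exact hR.trans (norm_nonneg x)
    rw [this]; exact isPreconnected_univ
  · push Not at hR
    have : {x : ℂ | R ≤ ‖x‖} =
        (fun q : ℝ × ℝ => (q.1 : ℂ) * Complex.exp (q.2 * Complex.I)) '' (Ici R ×ˢ univ) := by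
      ext x
      constructor
      · intro hx
        refine ⟨(‖x‖, Complex.arg x), ⟨hx, mem_univ _⟩, ?_⟩
        exact Complex.norm_mul_exp_arg_mul_I x
      · rintro ⟨⟨a, b⟩, ⟨ha, -⟩, rfl⟩
        simp only [mem_ofPred_eq, norm_mul, Complex.norm_real, Complex.norm_exp_ofReal_mul_I,
          mul_one, Real.norm_eq_abs]
        exact le_trans ha (le_abs_self a)
    rw [this]
    apply IsPreconnected.image
    · exact (isPreconnected_Ici).prod isPreconnected_univ
    · apply Continuous.continuousOn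
      fun_prop

theorem bounded_side {r c : ℝ} (hr : 0 < r) (hc : 2 < c) {P : Set ℂ} (hP : Covers r P)
    (A : Set P) (hfin : {q : P × P | q.1 ∈ A ∧ q.2 ∉ A ∧ dist (q.1 : ℂ) q.2 < c * r}.Finite) :
    (∃ R : ℝ, ∀ a ∈ A, ‖(a : ℂ)‖ ≤ R) ∨ (∃ R : ℝ, ∀ a ∉ A, ‖(a : ℂ)‖ ≤ R) := by
  by_cases hA0 : A = ∅
  · left; exact ⟨0, fun a ha => by rw [hA0] at ha; exact absurd ha (by simp)⟩
  by_cases hB0 : Aᶜ = ∅
  · right; refine ⟨0, fun a ha => ?_⟩
    have : a ∈ Aᶜ := ha
    rw [hB0] at this; exact absurd this (by simp)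
  obtain ⟨a0, ha0⟩ := nonempty_iff_ne_empty.2 hA0
  obtain ⟨b0, hb0⟩ := nonempty_iff_ne_empty.2 hB0
  obtain ⟨R0, hR0⟩ : ∃ R0 : ℝ, ∀ q ∈ {q : P × P | q.1 ∈ A ∧ q.2 ∉ A ∧
      dist (q.1 : ℂ) q.2 < c * r}, ‖(q.1 : ℂ)‖ ≤ R0 := by
    obtain ⟨M, hM⟩ := (hfin.image (fun q : P × P => ‖(q.1 : ℂ)‖)).bddAbove
    exact ⟨M, fun q hq => hM ⟨q, hq, rfl⟩⟩
  set δ : ℝ := (c - 2) * r / 2 with hδ
  have hδ0 : 0 < δ := by
    have : 0 < (c - 2) * r := mul_pos (by linarith) hr
    rw [hδ]; linarith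
  set R1 : ℝ := R0 + r + δ + 1 with hR1
  set XA : Set ℂ := {x | infDist x ((fun a : P => (a : ℂ)) '' A) ≤ r} with hXA
  set XB : Set ℂ := {x | infDist x ((fun a : P => (a : ℂ)) '' Aᶜ) ≤ r} with hXB
  have hAne : ((fun a : P => (a : ℂ)) '' A).Nonempty := ⟨a0, a0, ha0, rfl⟩
  have hBne : ((fun a : P => (a : ℂ)) '' Aᶜ).Nonempty := ⟨b0, b0, hb0, rfl⟩
  have hcA : IsClosed XA := isClosed_le (continuous_infDist_pt _) continuous_const
  have hcB : IsClosed XB := isClosed_le (continuous_infDist_pt _) continuous_const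
  have hcov : {x : ℂ | R1 ≤ ‖x‖} ⊆ XA ∪ XB := by
    intro x _
    obtain ⟨p, hp, hd⟩ := hP x
    by_cases hpA : (⟨p, hp⟩ : P) ∈ A
    · left
      exact (infDist_le_dist_of_mem (show p ∈ (fun a : P => (a : ℂ)) '' A from
        ⟨⟨p, hp⟩, hpA, rfl⟩)).trans hd
    · right
      exact (infDist_le_dist_of_mem (show p ∈ (fun a : P => (a : ℂ)) '' Aᶜ from
        ⟨⟨p, hp⟩, hpA, rfl⟩)).trans hd
  have key := isPreconnected_closed_iff.1 (isPreconnected_outside R1) XA XB hcA hcB hcov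
  have hdisj : ¬ ({x : ℂ | R1 ≤ ‖x‖} ∩ (XA ∩ XB)).Nonempty := by
    rintro ⟨x, hx, hxA, hxB⟩
    have hx' : R1 ≤ ‖x‖ := hx
    have h1 : infDist x ((fun a : P => (a : ℂ)) '' A) < r + δ :=
      lt_of_le_of_lt (show _ ≤ r from hxA) (by linarith)
    have h2 : infDist x ((fun a : P => (a : ℂ)) '' Aᶜ) < r + δ :=
      lt_of_le_of_lt (show _ ≤ r from hxB) (by linarith)
    obtain ⟨_, ⟨a, haA, rfl⟩, hda⟩ := (infDist_lt_iff hAne).1 h1
    obtain ⟨_, ⟨b, hbA, rfl⟩, hdb⟩ := (infDist_lt_iff hBne).1 h2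
    have hab : dist (a : ℂ) b < c * r := by
      calc dist (a : ℂ) b ≤ dist (a : ℂ) x + dist x b := dist_triangle _ _ _
        _ < (r + δ) + (r + δ) := add_lt_add (by rw [dist_comm]; exact hda) hdb
        _ = c * r := by rw [hδ]; ring
    have h3 := hR0 (a, b) ⟨haA, hbA, hab⟩
    have h4 : ‖x‖ ≤ ‖(a : ℂ)‖ + dist x a := by
      rw [dist_eq_norm]
      calc ‖x‖ = ‖(a : ℂ) + (x - a)‖ := by congr 1; ring
        _ ≤ _ := norm_add_le _ _
    have h5 : ‖(a : ℂ)‖ ≤ R0 := h3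
    have h6 : dist x (a : ℂ) < r + δ := hda
    linarith
  by_cases hne : ({x : ℂ | R1 ≤ ‖x‖} ∩ XA).Nonempty
  · right
    have hneB : ¬ ({x : ℂ | R1 ≤ ‖x‖} ∩ XB).Nonempty := fun h => hdisj (key hne h)
    refine ⟨R1, fun a ha => ?_⟩
    by_contra hlt
    push Not at hlt
    refine hneB ⟨a, hlt.le, ?_⟩
    show infDist (a : ℂ) ((fun a : P => (a : ℂ)) '' Aᶜ) ≤ r
    rw [infDist_zero_of_mem (show (a : ℂ) ∈ (fun a : P => (a : ℂ)) '' Aᶜ from ⟨a, ha, rfl⟩)]
    exact hr.le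
  · left
    refine ⟨R1, fun a ha => ?_⟩
    by_contra hlt
    push Not at hlt
    refine hne ⟨a, hlt.le, ?_⟩
    show infDist (a : ℂ) ((fun a : P => (a : ℂ)) '' A) ≤ r
    rw [infDist_zero_of_mem (show (a : ℂ) ∈ (fun a : P => (a : ℂ)) '' A from ⟨a, ha, rfl⟩)]
    exact hr.le

/-- a bounded side of a cut: the crossing differences cover the disc of radius `c - 1`. -/
theorem cut_cover {r c : ℝ} (hr : 0 < r) {P : Set ℂ} (hP : Covers r P)
    (A : Set P) (hne : A.Nonempty) (hb : ∃ R : ℝ, ∀ a ∈ A, ‖(a : ℂ)‖ ≤ R) (x : ℂ)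
    (hx : ‖x‖ < c - 1) (hx1 : 1 < ‖x‖) :
    ∃ a ∈ A, ∃ b ∉ A, dist (a : ℂ) b < c * r ∧ dist x (((b : ℂ) - a) / r) ≤ 1 := by
  obtain ⟨R, hR⟩ := hb
  obtain ⟨a0, ha0⟩ := hne
  set f : ℂ → ℝ := fun z => (z * (starRingEnd ℂ) x).re with hf
  have hfadd : ∀ z w, f (z + w) = f z + f w := by
    intro z w; simp only [hf]; rw [add_mul]; simp
  have hfle : ∀ z, f z ≤ ‖z‖ * ‖x‖ := by
    intro z
    calc f z ≤ ‖z * (starRingEnd ℂ) x‖ := Complex.re_le_norm _
      _ = ‖z‖ * ‖x‖ := by rw [norm_mul, Complex.norm_conj]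
  have hfx : ∀ s : ℝ, f ((s : ℂ) * x) = s * ‖x‖ ^ 2 := by
    intro s
    simp only [hf]
    rw [mul_assoc, Complex.mul_conj, Complex.normSq_eq_norm_sq]
    norm_cast
  have hx0 : 0 < ‖x‖ := by linarith
  set S : Set ℝ := (fun a : P => f a) '' A with hS
  have hSbdd : BddAbove S := by
    refine ⟨R * ‖x‖, ?_⟩
    rintro _ ⟨a, ha, rfl⟩
    exact (hfle a).trans (mul_le_mul_of_nonneg_right (hR a ha) hx0.le)
  have hSne : S.Nonempty := ⟨_, a0, ha0, rfl⟩
  have hgap : 0 < (‖x‖ - 1) * r * ‖x‖ := mul_pos (mul_pos (by linarith) hr) hx0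
  obtain ⟨_, ⟨a, ha, rfl⟩, hlt⟩ := exists_lt_of_lt_csSup hSne
    (show sSup S - (‖x‖ - 1) * r * ‖x‖ < sSup S by linarith)
  obtain ⟨p, hp, hd⟩ := hP ((a : ℂ) + (r : ℂ) * x)
  have hpA : (⟨p, hp⟩ : P) ∉ A := by
    intro hmem
    have h1 : f p ≤ sSup S := le_csSup hSbdd ⟨⟨p, hp⟩, hmem, rfl⟩
    have h2 : f ((a : ℂ) + (r : ℂ) * x) = f p + f ((a : ℂ) + (r : ℂ) * x - p) := by
      rw [← hfadd]; congr 1; ring
    have h3 : f ((a : ℂ) + (r : ℂ) * x - p) ≤ r * ‖x‖ :=
      (hfle _).trans (mul_le_mul_of_nonneg_right (by rw [← dist_eq_norm]; exact hd) hx0.le)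
    rw [hfadd, hfx] at h2
    have h4 : sSup S - (‖x‖ - 1) * r * ‖x‖ < f a := hlt
    nlinarith
  refine ⟨a, ha, ⟨p, hp⟩, hpA, ?_, ?_⟩
  · show dist (a : ℂ) p < c * r
    calc dist (a : ℂ) p ≤ dist (a : ℂ) ((a : ℂ) + (r : ℂ) * x) + dist ((a : ℂ) + (r : ℂ) * x) p :=
          dist_triangle _ _ _
      _ ≤ r * ‖x‖ + r := by
          refine add_le_add ?_ hd
          rw [dist_eq_norm]
          have : (a : ℂ) - ((a : ℂ) + (r : ℂ) * x) = -((r : ℂ) * x) := by ring
          rw [this, norm_neg, norm_mul, Complex.norm_real, Real.norm_eq_abs, abs_of_pos hr]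
      _ < c * r := by nlinarith
  · show dist x ((p - (a : ℂ)) / r) ≤ 1
    rw [dist_eq_norm]
    have hrc : (r : ℂ) ≠ 0 := by exact_mod_cast hr.ne'
    have : x - (p - (a : ℂ)) / r = ((a : ℂ) + (r : ℂ) * x - p) / r := by
      field_simp; ring
    rw [this, norm_div, Complex.norm_real, Real.norm_eq_abs, abs_of_pos hr, div_le_one hr,
      ← dist_eq_norm]
    exact hd

theorem sufficient {r c : ℝ} (hr : 0 < r) {k : ℕ} (hk : 1 ≤ k)
    (hT : ∀ T : Finset ℂ, T.card < k →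
      ¬ (ball (0 : ℂ) (c - 1) ⊆ closedBall 0 1 ∪ ⋃ t ∈ T, closedBall t 1))
    {P : Set ℂ} (hP : Covers r P) : EdgeConn k (distGraph r c P) := by
  classical
  have hc : 2 < c := by
    by_contra hle
    push Not at hle
    refine hT ∅ (by simp; omega) ?_
    intro x hx
    left
    rw [mem_closedBall_zero_iff]
    rw [mem_ball_zero_iff] at hx
    linarith
  have main : ∀ F : Finset (Sym2 P), F.card < k →
      ((distGraph r c P).deleteEdges (F : Set (Sym2 P))).Connected := by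
    intro F hF
    obtain ⟨p0, hp0, -⟩ := hP 0
    have : Nonempty P := ⟨⟨p0, hp0⟩⟩
    refine ⟨?_⟩
    by_contra hcon
    simp only [SimpleGraph.Preconnected] at hcon
    push Not at hcon
    obtain ⟨u, v, huv⟩ := hcon
    set H := (distGraph r c P).deleteEdges (F : Set (Sym2 P)) with hH
    set A : Set P := {w | H.Reachable u w} with hA
    have huA : u ∈ A := SimpleGraph.Reachable.refl u
    have hvA : v ∉ A := huv
    have hcross : ∀ q ∈ {q : P × P | q.1 ∈ A ∧ q.2 ∉ A ∧ dist (q.1 : ℂ) q.2 < c * r},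
        s(q.1, q.2) ∈ (F : Set (Sym2 P)) := by
      rintro ⟨a, b⟩ ⟨ha, hb, hd⟩
      by_contra hnot
      apply hb
      have hadj : H.Adj a b := by
        rw [hH, SimpleGraph.deleteEdges_adj]
        refine ⟨⟨?_, hd⟩, hnot⟩
        rintro h
        exact hb (h ▸ ha)
      exact SimpleGraph.Reachable.trans ha hadj.reachable
    have hinj : InjOn (fun q : P × P => s(q.1, q.2))
        {q : P × P | q.1 ∈ A ∧ q.2 ∉ A ∧ dist (q.1 : ℂ) q.2 < c * r} := by
      rintro ⟨a, b⟩ ⟨ha, hb, -⟩ ⟨a', b'⟩ ⟨ha', hb', -⟩ h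
      simp only [Sym2.eq_iff] at h
      rcases h with ⟨h1, h2⟩ | ⟨h1, h2⟩
      · exact Prod.ext h1 h2
      · exfalso
        simp only at ha hb'
        exact hb' (h1 ▸ ha)
    have hfin : {q : P × P | q.1 ∈ A ∧ q.2 ∉ A ∧ dist (q.1 : ℂ) q.2 < c * r}.Finite := by
      refine Set.Finite.of_finite_image (F.finite_toSet.subset ?_) hinj
      rintro _ ⟨q, hq, rfl⟩
      exact hcross q hq
    have hcard : hfin.toFinset.card < k := by
      refine lt_of_le_of_lt ?_ hF
      refine Finset.card_le_card_of_injOn (fun q : P × P => s(q.1, q.2)) ?_ ?_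
      · intro q hq
        exact hcross q (by simpa using hq)
      · intro q hq q' hq' h
        exact hinj (by simpa using hq) (by simpa using hq') h
    rcases bounded_side hr hc hP A hfin with hb | hb
    · refine hT (hfin.toFinset.image (fun q => ((q.2 : ℂ) - q.1) / r))
        (lt_of_le_of_lt Finset.card_image_le hcard) ?_
      intro x hx
      rw [mem_ball_zero_iff] at hx
      by_cases hx1 : ‖x‖ ≤ 1
      · left; rwa [mem_closedBall_zero_iff]
      · push Not at hx1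
        right
        obtain ⟨a, ha, b, hbA, hd, hxd⟩ := cut_cover hr hP A ⟨u, huA⟩ hb x hx hx1
        refine mem_iUnion₂.2 ⟨((b : ℂ) - a) / r, ?_, hxd⟩
        exact Finset.mem_image.2 ⟨(a, b), hfin.mem_toFinset.2 ⟨ha, hbA, hd⟩, rfl⟩
    · refine hT (hfin.toFinset.image (fun q => ((q.1 : ℂ) - q.2) / r))
        (lt_of_le_of_lt Finset.card_image_le hcard) ?_
      intro x hx
      rw [mem_ball_zero_iff] at hx
      by_cases hx1 : ‖x‖ ≤ 1
      · left; rwa [mem_closedBall_zero_iff]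
      · push Not at hx1
        right
        obtain ⟨a, ha, b, hbA, hd, hxd⟩ := cut_cover hr hP Aᶜ ⟨v, hvA⟩ hb x hx hx1
        refine mem_iUnion₂.2 ⟨((b : ℂ) - a) / r, ?_, hxd⟩
        refine Finset.mem_image.2 ⟨(b, a), hfin.mem_toFinset.2 ⟨?_, ha, ?_⟩, rfl⟩
        · simpa using hbA
        · simp only; rw [dist_comm]; exact hd
  refine ⟨?_, fun F _ hF => main F hF⟩
  have h0 := main ∅ (by simp; omega)
  simpa using h0

theorem exists_adj_of_reachable {V : Type} (H : SimpleGraph V) {u v : V} (h : H.Reachable u v)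
    (hne : u ≠ v) : ∃ w, H.Adj u w := by
  obtain ⟨w⟩ := h
  cases w with
  | nil => exact absurd rfl hne
  | cons h p => exact ⟨_, h⟩

/-- If few unit discs suffice, the arrangement `0`, the centres, and everything far away is
covering but its graph is not `k`-edge-connected. -/
theorem necessary {r c : ℝ} (hr : 0 < r) (hc : 0 < c) {k : ℕ} (T : Finset ℂ) (hTk : T.card < k)
    (hT : ball (0 : ℂ) (c - 1) ⊆ closedBall 0 1 ∪ ⋃ t ∈ T, closedBall t 1) :
    ∃ P : Set ℂ, Covers r P ∧ ¬ EdgeConn k (distGraph r c P) := by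
  classical
  set P : Set ℂ := {y | y = 0 ∨ (∃ t ∈ T, y = (r : ℂ) * t) ∨ c * r ≤ ‖y‖} with hPdef
  have hrc : (r : ℂ) ≠ 0 := by exact_mod_cast hr.ne'
  have h0P : (0 : ℂ) ∈ P := Or.inl rfl
  refine ⟨P, ?_, ?_⟩
  · intro x
    by_cases hx : ‖x‖ < (c - 1) * r
    · have hxr : x / r ∈ ball (0 : ℂ) (c - 1) := by
        rw [mem_ball_zero_iff, norm_div, Complex.norm_real, Real.norm_eq_abs, abs_of_pos hr,
          div_lt_iff₀ hr]
        exact hx
      rcases hT hxr with h | h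
      · refine ⟨0, h0P, ?_⟩
        rw [mem_closedBall_zero_iff, norm_div, Complex.norm_real, Real.norm_eq_abs,
          abs_of_pos hr, div_le_one hr] at h
        rwa [dist_zero_right]
      · obtain ⟨t, ht, hxt⟩ := mem_iUnion₂.1 h
        refine ⟨(r : ℂ) * t, Or.inr (Or.inl ⟨t, ht, rfl⟩), ?_⟩
        rw [mem_closedBall, dist_eq_norm] at hxt
        rw [dist_eq_norm]
        have : x - (r : ℂ) * t = (r : ℂ) * (x / r - t) := by field_simp
        rw [this, norm_mul, Complex.norm_real, Real.norm_eq_abs, abs_of_pos hr]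
        nlinarith
    · push Not at hx
      by_cases hx0 : x = 0
      · exact ⟨0, h0P, by rw [hx0, dist_self]; exact hr.le⟩
      · have hn : 0 < ‖x‖ := norm_pos_iff.2 hx0
        refine ⟨x + (r / ‖x‖ : ℝ) * x, Or.inr (Or.inr ?_), ?_⟩
        · have : x + (r / ‖x‖ : ℝ) * x = ((1 + r / ‖x‖ : ℝ) : ℂ) * x := by push_cast; ring
          rw [this, norm_mul, Complex.norm_real, Real.norm_eq_abs,
            abs_of_pos (by positivity), add_mul, one_mul, div_mul_cancel₀ _ hn.ne']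
          linarith
        · rw [dist_eq_norm]
          have : x - (x + (r / ‖x‖ : ℝ) * x) = -(((r / ‖x‖ : ℝ) : ℂ) * x) := by ring
          rw [this, norm_neg, norm_mul, Complex.norm_real, Real.norm_eq_abs,
            abs_of_pos (by positivity), div_mul_cancel₀ _ hn.ne']
  · rintro ⟨-, hdel⟩
    set G := distGraph r c P with hG
    set v0 : P := ⟨0, h0P⟩ with hv0
    set F : Finset (Sym2 P) := (T.attach.image (fun t => s(v0, (⟨(r : ℂ) * t.1,
      Or.inr (Or.inl ⟨t.1, t.2, rfl⟩)⟩ : P)))).filter (fun e => e ∈ G.edgeSet) with hF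
    have hFe : (F : Set (Sym2 P)) ⊆ G.edgeSet := by
      intro e he
      rw [Finset.mem_coe, hF, Finset.mem_filter] at he
      exact he.2
    have hFc : F.card < k := by
      refine lt_of_le_of_lt ((Finset.card_filter_le _ _).trans Finset.card_image_le) ?_
      rwa [Finset.card_attach]
    have hconn := hdel F hFe hFc
    have hy : (((c * r : ℝ) : ℂ)) ∈ P := by
      refine Or.inr (Or.inr ?_)
      rw [Complex.norm_real, Real.norm_eq_abs, abs_of_pos (by positivity)]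
    have hne : v0 ≠ ⟨((c * r : ℝ) : ℂ), hy⟩ := by
      intro h
      have h2 : (0 : ℂ) = ((c * r : ℝ) : ℂ) := congrArg Subtype.val h
      have h3 : (0 : ℝ) = c * r := by exact_mod_cast h2
      have : 0 < c * r := by positivity
      linarith
    obtain ⟨u, h⟩ := exists_adj_of_reachable _ (hconn.preconnected v0 _) hne
    rw [SimpleGraph.deleteEdges_adj] at h
    obtain ⟨hadj, hnot⟩ := h
    apply hnot
    have hd : dist (0 : ℂ) (u : ℂ) < c * r := hadj.2
    have hu : (u : ℂ) ∈ P := u.2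
    rcases hu with h1 | ⟨t, ht, h1⟩ | h1
    · exact absurd (Subtype.ext h1.symm : v0 = u) hadj.1
    · rw [Finset.mem_coe, hF, Finset.mem_filter]
      refine ⟨Finset.mem_image.2 ⟨⟨t, ht⟩, Finset.mem_attach _ _, ?_⟩, ?_⟩
      · have : (⟨(r : ℂ) * t, Or.inr (Or.inl ⟨t, ht, rfl⟩)⟩ : P) = u := Subtype.ext h1.symm
        rw [this]
      · exact hadj
    · rw [dist_zero_left] at hd
      linarith

/-! ## The concentric covering radius -/

theorem radSet_le {j : ℕ} {ρ : ℝ} (h : ρ ∈ radSet j) : ρ ≤ Real.sqrt (j + 1) := by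
  obtain ⟨T, hT, hsub⟩ := h
  by_cases h0 : ρ ≤ 0
  · exact h0.trans (Real.sqrt_nonneg _)
  push Not at h0
  apply Real.le_sqrt_of_sq_le
  have h1 : MeasureTheory.volume (ball (0 : ℂ) ρ) ≤
      MeasureTheory.volume (closedBall (0 : ℂ) 1) +
        ∑ t ∈ T, MeasureTheory.volume (closedBall t 1) := by
    refine (MeasureTheory.measure_mono hsub).trans
      ((MeasureTheory.measure_union_le _ _).trans ?_)
    gcongr
    exact MeasureTheory.measure_biUnion_finset_le _ _
  simp only [Complex.volume_ball, Complex.volume_closedBall, ENNReal.ofReal_one, one_pow, one_mul,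
    Finset.sum_const, nsmul_eq_mul] at h1
  have h2 := ENNReal.toReal_mono (by
    simp only [ne_eq, ENNReal.add_eq_top, ENNReal.coe_ne_top, false_or]
    exact ENNReal.mul_ne_top (ENNReal.natCast_ne_top _) ENNReal.coe_ne_top) h1
  rw [ENNReal.toReal_mul, ENNReal.toReal_add ENNReal.coe_ne_top
    (ENNReal.mul_ne_top (ENNReal.natCast_ne_top _) ENNReal.coe_ne_top), ENNReal.toReal_mul,
    ENNReal.toReal_pow, ENNReal.toReal_ofReal h0.le, ENNReal.toReal_natCast] at h2
  simp only [ENNReal.coe_toReal, NNReal.coe_real_pi] at h2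
  have h3 : (T.card : ℝ) ≤ j := by exact_mod_cast hT
  have hpi := Real.pi_pos
  nlinarith

theorem radSet_mono {i j : ℕ} (h : i ≤ j) : radSet i ⊆ radSet j := by
  rintro ρ ⟨T, hT, hs⟩
  exact ⟨T, hT.trans h, hs⟩

theorem radSet_down {j : ℕ} {ρ σ : ℝ} (h : ρ ∈ radSet j) (hs : σ ≤ ρ) : σ ∈ radSet j := by
  obtain ⟨T, hT, hsub⟩ := h
  exact ⟨T, hT, (ball_subset_ball hs).trans hsub⟩

theorem one_mem (j : ℕ) : (1 : ℝ) ∈ radSet j :=
  ⟨∅, by simp, ball_subset_closedBall.trans subset_union_left⟩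

theorem bdd (j : ℕ) : BddAbove (radSet j) := ⟨_, fun _ h => radSet_le h⟩

theorem one_le (j : ℕ) : 1 ≤ discRad j := le_csSup (bdd j) (one_mem j)

/-- a tuple version, with bounded centres. -/
theorem tuple {j : ℕ} {ρ σ : ℝ} (h : ρ ∈ radSet j) (hρ : ρ ≤ σ) (hσ : 0 ≤ σ) :
    ∃ g : Fin j → ℂ, (∀ i, ‖g i‖ ≤ σ + 1) ∧
      ∀ x : ℂ, ‖x‖ < ρ → ‖x‖ ≤ 1 ∨ ∃ i, ‖x - g i‖ ≤ 1 := by
  classical
  obtain ⟨T, hT, hs⟩ := h
  obtain ⟨e⟩ : Nonempty (T ↪ Fin j) :=
    Function.Embedding.nonempty_of_card_le (by simpa using hT)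
  set f : Fin j → ℂ := Function.extend e (fun t => (t : ℂ)) (fun _ => 0) with hf
  refine ⟨fun i => if ‖f i‖ ≤ σ + 1 then f i else 0, ?_, ?_⟩
  · intro i
    dsimp only
    split_ifs with h
    · exact h
    · rw [norm_zero]; linarith
  · intro x hx
    rcases hs (mem_ball_zero_iff.2 hx) with h1 | h1
    · left; simpa using h1
    · obtain ⟨t, ht, hxt⟩ := mem_iUnion₂.1 h1
      right
      refine ⟨e ⟨t, ht⟩, ?_⟩
      have hft : f (e ⟨t, ht⟩) = t := e.injective.extend_apply _ _ _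
      rw [mem_closedBall, dist_eq_norm] at hxt
      have hn : ‖f (e ⟨t, ht⟩)‖ ≤ σ + 1 := by
        rw [hft]
        have : ‖t‖ ≤ ‖x‖ + ‖x - t‖ := by
          calc ‖t‖ = ‖x - (x - t)‖ := by congr 1; ring
            _ ≤ _ := norm_sub_le _ _
        linarith
      dsimp only
      rw [if_pos hn, hft]
      exact hxt

theorem attained (j : ℕ) : discRad j ∈ radSet j := by
  classical
  have h1 := one_le j
  set ρ := discRad j with hρ
  have hex : ∀ n : ℕ, ∃ g : Fin j → ℂ, (∀ i, ‖g i‖ ≤ ρ + 1) ∧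
      ∀ x : ℂ, ‖x‖ < ρ - 1 / ((n : ℝ) + 1) → ‖x‖ ≤ 1 ∨ ∃ i, ‖x - g i‖ ≤ 1 := by
    intro n
    have hpos : (0 : ℝ) < 1 / ((n : ℝ) + 1) := by positivity
    obtain ⟨ρ', h', hlt⟩ := exists_lt_of_lt_csSup ⟨1, one_mem j⟩
      (show ρ - 1 / ((n : ℝ) + 1) < sSup (radSet j) by
        show ρ - 1 / ((n : ℝ) + 1) < ρ
        linarith)
    exact tuple (radSet_down h' hlt.le) (by linarith) (by linarith)
  choose g hg1 hg2 using hex
  have hcomp : IsCompact (Set.pi univ (fun _ : Fin j => closedBall (0 : ℂ) (ρ + 1))) :=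
    isCompact_univ_pi (fun _ => isCompact_closedBall _ _)
  obtain ⟨G, hG, φ, hφ, hlim⟩ := hcomp.tendsto_subseq (x := g)
    (fun n i _ => mem_closedBall_zero_iff.2 (hg1 n i))
  refine ⟨Finset.univ.image G, by simpa using Finset.card_image_le (s := Finset.univ) (f := G),
    ?_⟩
  intro x hx
  rw [mem_ball_zero_iff] at hx
  by_contra hcon
  have hx1 : 1 < ‖x‖ := by
    by_contra hle
    push Not at hle
    exact hcon (Or.inl (mem_closedBall_zero_iff.2 hle))
  have hfar : ∀ i, 1 < ‖x - G i‖ := by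
    intro i
    by_contra hle
    push Not at hle
    refine hcon (Or.inr (mem_iUnion₂.2 ⟨G i, Finset.mem_image.2 ⟨i, Finset.mem_univ _, rfl⟩, ?_⟩))
    rw [mem_closedBall, dist_eq_norm]; exact hle
  have e1 : ∀ᶠ n in Filter.atTop, ∀ i, 1 < ‖x - g (φ n) i‖ := by
    rw [Filter.eventually_all]
    intro i
    have h2 : Filter.Tendsto (fun n => ‖x - g (φ n) i‖) Filter.atTop (nhds ‖x - G i‖) :=
      (tendsto_const_nhds.sub (tendsto_pi_nhds.1 hlim i)).norm
    exact h2.eventually_const_lt (hfar i)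
  have e2 : ∀ᶠ n in Filter.atTop, ‖x‖ < ρ - 1 / (((φ n : ℕ) : ℝ) + 1) := by
    have h3 : Filter.Tendsto (fun n : ℕ => ρ - 1 / ((n : ℝ) + 1)) Filter.atTop (nhds (ρ - 0)) :=
      tendsto_const_nhds.sub tendsto_one_div_add_atTop_nhds_zero_nat
    exact (h3.comp hφ.tendsto_atTop).eventually_const_lt (by simpa using hx)
  obtain ⟨n, hn1, hn2⟩ := (e1.and e2).exists
  rcases hg2 (φ n) x hn2 with h | ⟨i, h⟩
  · linarith
  · exact absurd h (not_le.2 (hn1 i))

theorem goodC_eq {k : ℕ} (hk : 1 ≤ k) {r : ℝ} (hr : 0 < r) :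
    goodC k r = Ioi (1 + discRad (k - 1)) := by
  ext c
  constructor
  · rintro ⟨hc, h⟩
    by_contra hle
    rw [mem_Ioi, not_lt] at hle
    obtain ⟨T, hT, hsub⟩ := radSet_down (attained (k - 1)) (show c - 1 ≤ discRad (k - 1) by linarith)
    obtain ⟨P, hP, hnot⟩ := necessary hr hc (k := k) T (by omega) hsub
    exact hnot (h P hP)
  · intro hc
    rw [mem_Ioi] at hc
    have h1 := one_le (k - 1)
    refine ⟨by linarith, fun P hP => sufficient hr hk ?_ hP⟩
    intro T hT hsub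
    have h2 : c - 1 ≤ discRad (k - 1) := le_csSup (bdd _) ⟨T, by omega, hsub⟩
    linarith

/-! ## Explicit values -/

theorem circle_norm_le {x β : ℝ} (h0 : 0 ≤ β) (hc : Real.cos β ≤ Real.cos x) :
    ‖(x : AddCircle (2 * Real.pi))‖ ≤ β := by
  by_contra hlt
  push Not at hlt
  have hpi := Real.pi_pos
  have h1 : ‖(x : AddCircle (2 * Real.pi))‖ ≤ Real.pi := by
    have := AddCircle.norm_le_half_period (p := 2 * Real.pi) (x := (x : AddCircle (2 * Real.pi)))
      (by positivity)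
    rw [abs_of_pos (by positivity)] at this
    linarith
  have h2 := Real.cos_lt_cos_of_nonneg_of_le_pi h0 h1 hlt
  have h3 : Real.cos ‖(x : AddCircle (2 * Real.pi))‖ = Real.cos x := by
    rw [AddCircle.norm_eq, Real.cos_abs, Real.cos_sub_int_mul_two_pi]
  linarith

theorem arc_cos {R θ : ℝ} (hR : 1 < R) (t : ℂ)
    (h : ‖(R : ℂ) * Complex.exp (θ * Complex.I) - t‖ ≤ 1) :
    Real.sqrt (1 - (1 / R) ^ 2) ≤ Real.cos (θ - Complex.arg t) := by
  set a := ‖t‖ with ha
  have ha0 : 0 ≤ a := norm_nonneg t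
  set φ := Complex.arg t with hφ
  have hre : t.re = a * Real.cos φ := (Complex.norm_mul_cos_arg t).symm
  have him : t.im = a * Real.sin φ := (Complex.norm_mul_sin_arg t).symm
  have hsq : Complex.normSq ((R : ℂ) * Complex.exp (θ * Complex.I) - t) ≤ 1 := by
    rw [Complex.normSq_eq_norm_sq]
    have := norm_nonneg ((R : ℂ) * Complex.exp (θ * Complex.I) - t)
    nlinarith
  rw [Complex.normSq_apply] at hsq
  simp only [Complex.sub_re, Complex.sub_im, Complex.mul_re, Complex.mul_im, Complex.ofReal_re,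
    Complex.ofReal_im, Complex.exp_ofReal_mul_I_re, Complex.exp_ofReal_mul_I_im, zero_mul,
    sub_zero, add_zero, hre, him] at hsq
  rw [Real.cos_sub]
  set C := Real.cos θ * Real.cos φ + Real.sin θ * Real.sin φ with hC
  have h1 : R ^ 2 + a ^ 2 - 2 * R * a * C ≤ 1 := by
    have e1 := Real.sin_sq_add_cos_sq θ
    have e2 := Real.sin_sq_add_cos_sq φ
    have : R ^ 2 + a ^ 2 - 2 * R * a * C =
        (R * Real.cos θ - a * Real.cos φ) * (R * Real.cos θ - a * Real.cos φ) +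
        (R * Real.sin θ - a * Real.sin φ) * (R * Real.sin θ - a * Real.sin φ) := by
      rw [hC]
      linear_combination (-R ^ 2) * e1 + (-a ^ 2) * e2
    rw [this]; exact hsq
  set s := Real.sqrt (R ^ 2 - 1) with hs
  have hs2 : s ^ 2 = R ^ 2 - 1 := Real.sq_sqrt (by nlinarith)
  have hs0 : 0 ≤ s := Real.sqrt_nonneg _
  have hR0 : 0 < R := by linarith
  have hsq2 : Real.sqrt (1 - (1 / R) ^ 2) = s / R := by
    rw [show 1 - (1 / R) ^ 2 = (R ^ 2 - 1) / R ^ 2 by field_simp, Real.sqrt_div (by nlinarith),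
      Real.sqrt_sq hR0.le]
  rw [hsq2, div_le_iff₀ hR0]
  have hapos : 0 < a := by
    rcases lt_or_eq_of_le ha0 with h | h
    · exact h
    · exfalso; rw [← h] at h1; nlinarith
  have h2 : 2 * s * a ≤ 2 * R * a * C := by nlinarith [sq_nonneg (s - a)]
  have h3 : s * a ≤ (C * R) * a := by nlinarith
  exact le_of_mul_le_mul_right h3 hapos

theorem arc_bound {j : ℕ} (hj : 2 ≤ j) : discRad j ≤ 1 / Real.sin (Real.pi / j) := by
  by_contra hlt
  push Not at hlt
  have hjR : (2 : ℝ) ≤ j := by exact_mod_cast hj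
  have hpi := Real.pi_pos
  have hang0 : 0 < Real.pi / j := by positivity
  have hang1 : Real.pi / j ≤ Real.pi / 2 :=
    div_le_div_of_nonneg_left hpi.le (by norm_num) hjR
  have hsin : 0 < Real.sin (Real.pi / j) := Real.sin_pos_of_pos_of_lt_pi hang0 (by linarith)
  set R0 := 1 / Real.sin (Real.pi / j) with hR0def
  have hR0 : 1 ≤ R0 := by
    rw [hR0def, le_div_iff₀ hsin]
    simpa using Real.sin_le_one _
  set R := (discRad j + R0) / 2 with hRdef
  have hR1 : R0 < R := by rw [hRdef]; linarith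
  have hR2 : R < discRad j := by rw [hRdef]; linarith
  have hR : 1 < R := by linarith
  obtain ⟨T, hT, hsub⟩ := attained j
  set β := Real.arcsin (1 / R) with hβdef
  have hβ : β < Real.pi / j := by
    have h1 : 1 / R < Real.sin (Real.pi / j) := by
      rw [div_lt_iff₀ (by linarith)]
      rw [hR0def, div_lt_iff₀ hsin] at hR1
      linarith
    have h0 : 0 < 1 / R := by positivity
    calc β < Real.arcsin (Real.sin (Real.pi / j)) :=
          Real.arcsin_lt_arcsin (by linarith) h1 (Real.sin_le_one _)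
      _ = Real.pi / j := Real.arcsin_sin (by linarith) hang1
  have hβ0 : 0 ≤ β := Real.arcsin_nonneg.2 (by positivity)
  have hfact : Fact ((0 : ℝ) < 2 * Real.pi) := ⟨Real.two_pi_pos⟩
  have hcov : (univ : Set (AddCircle (2 * Real.pi))) ⊆
      ⋃ t ∈ T, closedBall ((Complex.arg t : ℝ) : AddCircle (2 * Real.pi)) β := by
    intro y _
    obtain ⟨θ, rfl⟩ := QuotientAddGroup.mk_surjective y
    have hx : ‖(R : ℂ) * Complex.exp (θ * Complex.I)‖ = R := by
      rw [norm_mul, Complex.norm_exp_ofReal_mul_I, mul_one, Complex.norm_real, Real.norm_eq_abs,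
        abs_of_pos (by linarith)]
    rcases hsub (mem_ball_zero_iff.2 (by rw [hx]; exact hR2)) with h | h
    · rw [mem_closedBall_zero_iff, hx] at h; linarith
    · obtain ⟨t, ht, hxt⟩ := mem_iUnion₂.1 h
      refine mem_iUnion₂.2 ⟨t, ht, ?_⟩
      rw [mem_closedBall, dist_eq_norm] at hxt ⊢
      have h3 := arc_cos hR t hxt
      have h4 : Real.cos β ≤ Real.cos (θ - Complex.arg t) := by
        rw [hβdef, Real.cos_arcsin]; exact h3
      exact circle_norm_le hβ0 h4
  have hvol := MeasureTheory.measure_mono (μ := MeasureTheory.volume) hcov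
  rw [AddCircle.measure_univ] at hvol
  have hvol2 := hvol.trans (MeasureTheory.measure_biUnion_finset_le _ _)
  have hvol3 : ENNReal.ofReal (2 * Real.pi) ≤ ∑ t ∈ T, ENNReal.ofReal (2 * β) := by
    refine hvol2.trans (Finset.sum_le_sum fun t _ => ?_)
    rw [AddCircle.volume_closedBall]
    exact ENNReal.ofReal_le_ofReal (min_le_right _ _)
  rw [Finset.sum_const, nsmul_eq_mul, ← ENNReal.ofReal_natCast, ← ENNReal.ofReal_mul (by positivity),
    ENNReal.ofReal_le_ofReal_iff (by positivity)] at hvol3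
  have h5 : (T.card : ℝ) ≤ j := by exact_mod_cast hT
  have h6 : (T.card : ℝ) * (2 * β) ≤ j * (2 * β) :=
    mul_le_mul_of_nonneg_right h5 (by linarith)
  have h7 : (j : ℝ) * β < j * (Real.pi / j) := mul_lt_mul_of_pos_left hβ (by linarith)
  rw [mul_div_cancel₀ _ (by linarith : (j : ℝ) ≠ 0)] at h7
  linarith

theorem normSq_polar (x : ℂ) (m ψ : ℝ) :
    ‖x - (m : ℂ) * Complex.exp (ψ * Complex.I)‖ ^ 2 =
      ‖x‖ ^ 2 + m ^ 2 - 2 * ‖x‖ * m * Real.cos (Complex.arg x - ψ) := by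
  set a := ‖x‖ with ha
  set φ := Complex.arg x with hφ
  have hre : x.re = a * Real.cos φ := (Complex.norm_mul_cos_arg x).symm
  have him : x.im = a * Real.sin φ := (Complex.norm_mul_sin_arg x).symm
  rw [← Complex.normSq_eq_norm_sq, Complex.normSq_apply]
  simp only [Complex.sub_re, Complex.sub_im, Complex.mul_re, Complex.mul_im, Complex.ofReal_re,
    Complex.ofReal_im, Complex.exp_ofReal_mul_I_re, Complex.exp_ofReal_mul_I_im, zero_mul,
    sub_zero, add_zero, hre, him]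
  rw [Real.cos_sub]
  have e1 := Real.sin_sq_add_cos_sq ψ
  have e2 := Real.sin_sq_add_cos_sq φ
  linear_combination (a ^ 2) * e2 + (m ^ 2) * e1

theorem polygon_mem {j : ℕ} (hj : 2 ≤ j) (hj6 : j ≤ 6) :
    1 / Real.sin (Real.pi / j) ∈ radSet j := by
  classical
  have hjR : (2 : ℝ) ≤ j := by exact_mod_cast hj
  have hjR6 : (j : ℝ) ≤ 6 := by exact_mod_cast hj6
  have hj0 : (0 : ℝ) < j := by linarith
  have hpi := Real.pi_pos
  have hang0 : 0 < Real.pi / j := by positivity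
  have hang1 : Real.pi / j ≤ Real.pi / 2 :=
    div_le_div_of_nonneg_left hpi.le (by norm_num) hjR
  have hang6 : Real.pi / 6 ≤ Real.pi / j :=
    div_le_div_of_nonneg_left hpi.le hj0 hjR6
  set S := Real.sin (Real.pi / j) with hS
  set C := Real.cos (Real.pi / j) with hC
  have hShalf : 1 / 2 ≤ S := by
    rw [← Real.sin_pi_div_six]
    exact Real.sin_le_sin_of_le_of_le_pi_div_two (by linarith) hang1 hang6
  have hS0 : 0 < S := by linarith
  have hC0 : 0 ≤ C := Real.cos_nonneg_of_neg_pi_div_two_le_of_le (by linarith) hang1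
  have hSC : S ^ 2 + C ^ 2 = 1 := Real.sin_sq_add_cos_sq _
  refine ⟨(Finset.range j).image (fun l : ℕ => ((C / S : ℝ) : ℂ) *
    Complex.exp (((2 * Real.pi * l / j : ℝ) : ℂ) * Complex.I)), ?_, ?_⟩
  · exact Finset.card_image_le.trans (by simp)
  intro x hx
  rw [mem_ball_zero_iff] at hx
  by_cases hx1 : ‖x‖ ≤ 1
  · left; rwa [mem_closedBall_zero_iff]
  right
  push Not at hx1
  set θ := Complex.arg x with hθ
  set l0 : ℤ := round (θ * j / (2 * Real.pi)) with hl0
  have hround : |θ * j / (2 * Real.pi) - l0| ≤ 1 / 2 := abs_sub_round _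
  have hclose : |θ - 2 * Real.pi * l0 / j| ≤ Real.pi / j := by
    have h1 : θ - 2 * Real.pi * l0 / j = (θ * j / (2 * Real.pi) - l0) * (2 * Real.pi / j) := by
      field_simp
    rw [h1, abs_mul, abs_of_pos (by positivity : 0 < 2 * Real.pi / j)]
    calc |θ * j / (2 * Real.pi) - l0| * (2 * Real.pi / j) ≤ 1 / 2 * (2 * Real.pi / j) :=
          mul_le_mul_of_nonneg_right hround (by positivity)
      _ = Real.pi / j := by ring
  have hjZ : (0 : ℤ) < j := by exact_mod_cast (by omega : 0 < j)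
  have hm0 : 0 ≤ l0 % (j : ℤ) := Int.emod_nonneg _ hjZ.ne'
  have hm1 : l0 % (j : ℤ) < j := Int.emod_lt_of_pos _ hjZ
  obtain ⟨l, hl⟩ := Int.eq_ofNat_of_zero_le hm0
  have hlj : l < j := by
    have : (l : ℤ) < j := by rw [← hl]; exact hm1
    exact_mod_cast this
  have hdecomp : (l0 : ℝ) = l + j * ((l0 / (j : ℤ) : ℤ) : ℝ) := by
    have h2 := Int.emod_add_mul_ediv l0 (j : ℤ)
    rw [hl] at h2
    exact_mod_cast h2.symm
  refine mem_iUnion₂.2 ⟨_, Finset.mem_image.2 ⟨l, Finset.mem_range.2 hlj, rfl⟩, ?_⟩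
  rw [mem_closedBall, dist_eq_norm]
  have hcos : C ≤ Real.cos (θ - 2 * Real.pi * l / j) := by
    have h3 : θ - 2 * Real.pi * l / j =
        (θ - 2 * Real.pi * l0 / j) + ((l0 / (j : ℤ) : ℤ) : ℝ) * (2 * Real.pi) := by
      rw [hdecomp]; field_simp; ring
    rw [h3, Real.cos_add_int_mul_two_pi, ← Real.cos_abs (θ - 2 * Real.pi * l0 / j)]
    exact Real.cos_le_cos_of_nonneg_of_le_pi (abs_nonneg _) (by linarith) hclose
  have hsq : ‖x - ((C / S : ℝ) : ℂ) *
      Complex.exp (((2 * Real.pi * l / j : ℝ) : ℂ) * Complex.I)‖ ^ 2 ≤ 1 := by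
    rw [normSq_polar]
    have hm : 0 ≤ C / S := by positivity
    have h4 : 2 * ‖x‖ * (C / S) * C ≤
        2 * ‖x‖ * (C / S) * Real.cos (θ - 2 * Real.pi * l / j) :=
      mul_le_mul_of_nonneg_left hcos (by positivity)
    have h5 : ‖x‖ ^ 2 + (C / S) ^ 2 - 2 * ‖x‖ * (C / S) * C ≤ 1 := by
      have h6 : (‖x‖ - 1 / S) * (‖x‖ - (1 - 2 * S ^ 2) / S) ≤ 0 := by
        apply mul_nonpos_of_nonpos_of_nonneg
        · linarith
        · have : (1 - 2 * S ^ 2) / S ≤ 1 := by
            rw [div_le_one hS0]; nlinarith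
          linarith
      have h7 : ‖x‖ ^ 2 + (C / S) ^ 2 - 2 * ‖x‖ * (C / S) * C - 1 =
          (‖x‖ - 1 / S) * (‖x‖ - (1 - 2 * S ^ 2) / S) := by
        have hC2 : C ^ 2 = 1 - S ^ 2 := by linarith
        have h8 : ‖x‖ ^ 2 + (C / S) ^ 2 - 2 * ‖x‖ * (C / S) * C - 1 =
            ‖x‖ ^ 2 + C ^ 2 / S ^ 2 - 2 * ‖x‖ * (C ^ 2 / S) - 1 := by
          field_simp
        rw [h8, hC2]
        field_simp
        ring
      linarith
    linarith
  have h0 := norm_nonneg (x - ((C / S : ℝ) : ℂ) *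
      Complex.exp (((2 * Real.pi * l / j : ℝ) : ℂ) * Complex.I))
  nlinarith

theorem discRad_eq {j : ℕ} (hj : 2 ≤ j) (hj6 : j ≤ 6) :
    discRad j = 1 / Real.sin (Real.pi / j) :=
  le_antisymm (arc_bound hj) (le_csSup (bdd j) (polygon_mem hj hj6))

theorem discRad_zero_one {j : ℕ} (hj : j ≤ 1) : discRad j = 1 := by
  refine le_antisymm ?_ (one_le j)
  have h2 : discRad 2 = 1 := by
    rw [discRad_eq le_rfl (by norm_num)]
    norm_num
  rw [← h2]
  exact csSup_le_csSup (bdd 2) ⟨1, one_mem j⟩ (radSet_mono (by omega))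

theorem grid_mem (j : ℕ) : (Nat.sqrt j : ℝ) / Real.sqrt 2 ∈ radSet j := by
  classical
  set n := Nat.sqrt j with hn
  have hs2 : Real.sqrt 2 ^ 2 = 2 := Real.sq_sqrt (by norm_num)
  have hs0 : 0 < Real.sqrt 2 := Real.sqrt_pos.2 (by norm_num)
  refine ⟨((Finset.range n) ×ˢ (Finset.range n)).image (fun q : ℕ × ℕ =>
    (⟨(2 * q.1 + 1 - n) / Real.sqrt 2, (2 * q.2 + 1 - n) / Real.sqrt 2⟩ : ℂ)), ?_, ?_⟩
  · refine Finset.card_image_le.trans ?_
    rw [Finset.card_product, Finset.card_range]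
    exact Nat.sqrt_le j
  intro x hx
  rw [mem_ball_zero_iff] at hx
  right
  have coord : ∀ y : ℝ, |y| < n / Real.sqrt 2 → ∃ a : ℕ, a < n ∧
      (y - (2 * a + 1 - n) / Real.sqrt 2) ^ 2 ≤ 1 / 2 := by
    intro y hy
    have hy' : |y * Real.sqrt 2| < n := by
      rw [abs_mul, abs_of_pos hs0]
      rwa [lt_div_iff₀ hs0] at hy
    rw [abs_lt] at hy'
    set z := (y * Real.sqrt 2 + n) / 2 with hz
    have hz0 : 0 ≤ z := by rw [hz]; linarith [hy'.1]
    have hz1 : z < n := by rw [hz]; linarith [hy'.2]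
    refine ⟨⌊z⌋₊, (Nat.floor_lt hz0).2 hz1, ?_⟩
    have h1 := Nat.floor_le hz0
    have h2 := Nat.lt_floor_add_one z
    have h3 : y - (2 * (⌊z⌋₊ : ℝ) + 1 - n) / Real.sqrt 2 =
        (2 * z - (2 * (⌊z⌋₊ : ℝ) + 1)) / Real.sqrt 2 := by
      rw [hz]; field_simp; ring
    rw [h3, div_pow, hs2]
    have h4 : (2 * z - (2 * (⌊z⌋₊ : ℝ) + 1)) ^ 2 ≤ 1 := by nlinarith
    linarith
  obtain ⟨a, ha, ha2⟩ := coord x.re (lt_of_le_of_lt (Complex.abs_re_le_norm x) hx)
  obtain ⟨b, hb, hb2⟩ := coord x.im (lt_of_le_of_lt (Complex.abs_im_le_norm x) hx)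
  refine mem_iUnion₂.2 ⟨_, Finset.mem_image.2 ⟨(a, b), Finset.mem_product.2
    ⟨Finset.mem_range.2 ha, Finset.mem_range.2 hb⟩, rfl⟩, ?_⟩
  rw [mem_closedBall, dist_eq_norm]
  have hsq : ‖x - (⟨(2 * a + 1 - n) / Real.sqrt 2, (2 * b + 1 - n) / Real.sqrt 2⟩ : ℂ)‖ ^ 2 ≤
      1 := by
    rw [← Complex.normSq_eq_norm_sq, Complex.normSq_apply]
    simp only [Complex.sub_re, Complex.sub_im]
    nlinarith
  have h0 := norm_nonneg (x - (⟨(2 * a + 1 - n) / Real.sqrt 2,
    (2 * b + 1 - n) / Real.sqrt 2⟩ : ℂ))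
  nlinarith

/-- Main result. -/
theorem result {r : ℝ} (hr : 0 < r) :
    (∀ k : ℕ, 1 ≤ k → goodC k r = Ioi (1 + discRad (k - 1)) ∧
      critC k r = 1 + discRad (k - 1) ∧
      ∃ P : Set ℂ, Covers r P ∧ ¬ EdgeConn k (distGraph r (critC k r) P)) ∧
    (critC 1 r = 2 ∧ critC 2 r = 2 ∧ critC 3 r = 2 ∧ critC 4 r = 1 + 2 / Real.sqrt 3 ∧
      critC 5 r = 1 + Real.sqrt 2 ∧ critC 6 r = 1 + 1 / Real.sin (Real.pi / 5) ∧
      critC 7 r = 3) ∧
    (∀ j : ℕ, ((Nat.sqrt j : ℝ) / Real.sqrt 2 ≤ discRad j) ∧ discRad j ≤ Real.sqrt (j + 1)) := by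
  have hcrit : ∀ k : ℕ, 1 ≤ k → critC k r = 1 + discRad (k - 1) := by
    intro k hk
    rw [critC, goodC_eq hk hr, csInf_Ioi]
  refine ⟨?_, ⟨?_, ?_, ?_, ?_, ?_, ?_, ?_⟩, ?_⟩
  · intro k hk
    refine ⟨goodC_eq hk hr, hcrit k hk, ?_⟩
    by_contra hcon
    push Not at hcon
    have h1 := one_le (k - 1)
    have hmem : critC k r ∈ goodC k r := by
      refine ⟨?_, hcon⟩
      rw [hcrit k hk]; linarith
    rw [goodC_eq hk hr, hcrit k hk] at hmem
    exact lt_irrefl _ (mem_Ioi.1 hmem)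
  · rw [hcrit 1 le_rfl, discRad_zero_one (by norm_num)]; norm_num
  · rw [hcrit 2 (by norm_num), discRad_zero_one (by norm_num)]; norm_num
  · rw [hcrit 3 (by norm_num), discRad_eq (by norm_num) (by norm_num)]; norm_num
  · rw [hcrit 4 (by norm_num), discRad_eq (by norm_num) (by norm_num)]
    norm_num
  · rw [hcrit 5 (by norm_num), discRad_eq (by norm_num) (by norm_num)]
    norm_num
  · rw [hcrit 6 (by norm_num), discRad_eq (by norm_num) (by norm_num)]
    norm_num
  · rw [hcrit 7 (by norm_num), discRad_eq (by norm_num) (by norm_num)]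
    norm_num
  · intro j
    exact ⟨le_csSup (bdd j) (grid_mem j), csSup_le ⟨1, one_mem j⟩ (fun _ h => radSet_le h)⟩

end Pool.Agent.Results.MP_5da84a_co.EdgeConnectivity
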